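import Pool.Agent.Helper88.GM.Goals
import Pool.Agent.Helper85.RR.S1
import Pool.Agent.Helper64.PP.S3

/-!
# MP_69be96_nt, project GM, packet S3: the mean of the product of two squares
-/

set_option autoImplicit false

open Finset Filter Topology

open scoped Classical

namespace Pool.Agent.Helper13.GM

open Pool.Agent.Helper88.GM
open Pool.Agent.Helper88.RR (gg ab TB WB nz wb DB Db VM GB)
open Pool.Agent.Helper88.PP (pr Rg om Sf SS uu vv ee LA VV QQ cost nc dd)
open Pool.Agent.Helper85.RR (ab_nonneg gg_nonneg nz_le mem_TB card_TB prod_TB WB_eq DB_eq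
  wb_nonneg one_le_DB)
open Pool.Agent.Helper64.PP (glue resL resR resL_glue resR_glue glue_res prod_split)

/-- the label functions on the union -/
noncomputable def TU (m q M z : ℕ) (P P' : Finset ℕ) : Finset (↥(P ∪ P') → ℕ) :=
  (Fintype.piFinset (fun _ : ↥(P ∪ P') => insert 0 (LA z m (q * m)))).filter
    (fun t => resL P P' t ∈ TB m q M z P ∧ resR P P' t ∈ TB m q M z P')

lemma sum_TU (m q M z : ℕ) (P P' : Finset ℕ) (hd : Disjoint P P') (F : (P → ℕ) → ℝ)
    (G : (P' → ℕ) → ℝ) :
    ∑ t ∈ TU m q M z P P', F (resL P P' t) * G (resR P P' t) =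
      (∑ r ∈ TB m q M z P, F r) * ∑ s ∈ TB m q M z P', G s := by
  rw [Finset.sum_mul_sum, ← Finset.sum_product']
  refine Finset.sum_nbij' (fun t => (resL P P' t, resR P P' t))
    (fun rs => glue P P' rs.1 rs.2) ?_ ?_ ?_ ?_ ?_
  · intro t ht
    rw [TU, Finset.mem_filter] at ht
    rw [Finset.mem_product]
    exact ht.2
  · intro rs hrs
    rw [Finset.mem_product] at hrs
    rw [TU, Finset.mem_filter, resL_glue, resR_glue P P' hd]
    refine ⟨?_, hrs⟩
    rw [Fintype.mem_piFinset]
    intro i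
    have h1 := hrs.1
    have h2 := hrs.2
    rw [TB, Finset.mem_filter, Fintype.mem_piFinset] at h1 h2
    unfold glue
    split_ifs with h
    · exact h1.1 _
    · exact h2.1 _
  · intro t _
    exact glue_res P P' t
  · intro rs _
    exact Prod.ext (resL_glue P P' _ _) (resR_glue P P' hd _ _)
  · intro t _
    rfl

lemma nz_split (P P' : Finset ℕ) (hd : Disjoint P P') (r : ↥(P ∪ P') → ℕ) :
    nz r = nz (resL P P' r) + nz (resR P P' r) := by
  unfold nz
  have := prod_split (M := Multiplicative ℕ) P P' hd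
    (fun _ k => Multiplicative.ofAdd (if k ≠ 0 then 1 else 0)) r
  rw [← ofAdd_sum, ← ofAdd_sum, ← ofAdd_sum, ← ofAdd_add] at this
  have h4 := Multiplicative.ofAdd.injective this
  rw [Finset.card_filter, Finset.card_filter, Finset.card_filter]
  exact h4

lemma mem_sp {P : Finset ℕ} (r : P → ℕ) (x : ℕ) :
    x ∈ sp r ↔ ∃ h : x ∈ P, r ⟨x, h⟩ ≠ 0 := by
  unfold sp
  simp only [Finset.mem_image, Finset.mem_filter, Finset.mem_univ, true_and]
  constructor
  · rintro ⟨a, ha, rfl⟩
    exact ⟨a.2, ha⟩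
  · rintro ⟨h, hr⟩
    exact ⟨⟨x, h⟩, hr, rfl⟩

lemma sp_sub {P : Finset ℕ} (r : P → ℕ) : sp r ⊆ P := by
  intro x hx
  rw [mem_sp] at hx
  exact hx.1

lemma card_sp {P : Finset ℕ} (r : P → ℕ) : (sp r).card = nz r := by
  unfold sp nz
  exact Finset.card_image_of_injective _ Subtype.val_injective

lemma sp_split (P P' : Finset ℕ) (r : ↥(P ∪ P') → ℕ) :
    sp r = sp (resL P P' r) ∪ sp (resR P P' r) := by
  ext x
  rw [Finset.mem_union, mem_sp, mem_sp, mem_sp]
  constructor
  · rintro ⟨h, hr⟩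
    rcases Finset.mem_union.1 h with h1 | h1
    · exact Or.inl ⟨h1, hr⟩
    · exact Or.inr ⟨h1, hr⟩
  · rintro (⟨h, hr⟩ | ⟨h, hr⟩)
    · exact ⟨Finset.mem_union_left _ h, hr⟩
    · exact ⟨Finset.mem_union_right _ h, hr⟩

/-- packet S3 -/
theorem s3 (h0 : StmtGL) (h1 : StmtTS) (h2 : StmtGW) : StmtS3 := by
  intro ε hε
  obtain ⟨c, hc, E0, hE0⟩ := h1
  set δ : ℝ := Real.log (1 + ε / 2) with hδ
  have hδ0 : 0 < δ := Real.log_pos (by linarith)
  have hexpδ : Real.exp δ = 1 + ε / 2 := Real.exp_log (by linarith)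
  obtain ⟨E1, hE1⟩ := exists_nat_ge (1 / δ ^ 3)
  obtain ⟨E2, hE2⟩ := exists_nat_ge (-(Real.log (ε / 2)) / c)
  refine ⟨max E0 (max E1 (max E2 4)), fun E z x y hE hsr u v Q b hin m q hm hqm hV hK t t' ht ht'
    P P' hP hP' hPo => ?_⟩
  have hEE0 : E0 ≤ E := le_trans (le_max_left _ _) hE
  have hEE1 : E1 ≤ E := le_trans (le_trans (le_max_left _ _) (le_max_right _ _)) hE
  have hEE2 : E2 ≤ E :=
    le_trans (le_trans (le_max_left _ _) (le_trans (le_max_right _ _) (le_max_right _ _))) hE
  have hE4 : 4 ≤ E :=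
    le_trans (le_trans (le_max_right _ _) (le_trans (le_max_right _ _) (le_max_right _ _))) hE
  have hEr : (4 : ℝ) ≤ E := by exact_mod_cast hE4
  have hE0r : (0 : ℝ) < E := by linarith
  have hz2 : 2 ≤ z := by
    have h3 := Real.add_one_le_exp (E : ℝ)
    have h4 := hsr.1
    have h5 : ((2 : ℕ) : ℝ) ≤ z := by
      push_cast
      linarith
    exact_mod_cast h5
  have hz0 : (0 : ℝ) < z := by
    have : (2 : ℝ) ≤ z := by exact_mod_cast hz2
    linarith
  -- `y` is large
  have hlogz : (E : ℝ) ≤ Real.log z := by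
    rw [← Real.log_exp (E : ℝ)]
    exact Real.log_le_log (Real.exp_pos _) hsr.1
  have hlogx : (E : ℝ) * Real.log z ≤ Real.log x := by
    rw [← Real.log_pow]
    refine Real.log_le_log (by positivity) ?_
    exact_mod_cast hsr.2.1
  have hylog : (E : ℝ) * Real.log z ≤ y := hlogx.trans hsr.2.2.2.1
  have hyE : (E : ℝ) * E ≤ y := (mul_le_mul_of_nonneg_left hlogz hE0r.le).trans hylog
  have hyEn : E * E ≤ y := by exact_mod_cast hyE
  have hyr : (0 : ℝ) < y := by nlinarith
  set K0 : ℕ := E / 16 / m + 1 with hK0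
  have hK0E : K0 ≤ E := by
    have h3 : E / 16 / m ≤ E / 16 := Nat.div_le_self _ _
    omega
  have h4K : 4 * K0 ≤ y := by
    have : 4 * K0 ≤ E * E := Nat.mul_le_mul hE4 hK0E
    omega
  -- the exponent
  have hkd : 4 * ((K0 : ℝ) * K0) / E ≤ δ := by
    set k : ℝ := 2 * (K0 : ℝ) with hk
    have hk0 : 0 < k := by
      have : (1 : ℝ) ≤ K0 := by
        rw [hK0]
        push_cast
        have : (0 : ℝ) ≤ ((E / 16 / m : ℕ) : ℝ) := by positivity
        linarith
      linarith
    have hk3 : k ^ 3 ≤ E := by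
      rw [hk]
      exact_mod_cast hK
    have h5 : 4 * ((K0 : ℝ) * K0) = k ^ 2 := by rw [hk]; ring
    rw [h5, div_le_iff₀ hE0r]
    rcases le_or_gt (1 / δ) k with h6 | h6
    · have h7 : 1 ≤ δ * k := by
        rw [div_le_iff₀ hδ0] at h6
        linarith
      calc k ^ 2 = 1 * k ^ 2 := by ring
        _ ≤ (δ * k) * k ^ 2 := mul_le_mul_of_nonneg_right h7 (by positivity)
        _ = δ * k ^ 3 := by ring
        _ ≤ δ * E := mul_le_mul_of_nonneg_left hk3 hδ0.le
    · have h8 : k ^ 2 ≤ (1 / δ) ^ 2 := pow_le_pow_left₀ hk0.le h6.le 2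
      have h9 : 1 / δ ^ 3 ≤ E := hE1.trans (by exact_mod_cast hEE1)
      calc k ^ 2 ≤ (1 / δ) ^ 2 := h8
        _ = δ * (1 / δ ^ 3) := by field_simp
        _ ≤ δ * E := mul_le_mul_of_nonneg_left h9 hδ0.le
  -- the points
  have hPz : P ⊆ Icc 1 z := hP.trans (Finset.Icc_subset_Icc (by omega) (by omega))
  have hPz' : P' ⊆ Icc 1 z := hP'.trans (Finset.Icc_subset_Icc (by omega) (by omega))
  have hd : Disjoint P P' := by
    rw [Finset.disjoint_left]
    intro a ha ha'
    have h3 := Finset.mem_Icc.1 (hP ha)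
    have h4 := Finset.mem_Icc.1 (hP' ha')
    omega
  have hPy : P.card ≤ y := by
    refine (Finset.card_le_card hP).trans ?_
    simp
  have hPy' : P'.card ≤ y := by
    refine (Finset.card_le_card hP').trans ?_
    simp
  have key := hE0 E z x y hEE0 hsr u v Q b hin m q (2 * K0) hm hqm hV hK (P ∪ P')
    (Finset.union_subset hPz hPz')
    (by
      rw [Finset.card_union_of_disjoint hd]
      push_cast
      exact hPo)
    (TU m q (E / 16) z P P')
    (fun t => ∏ i, (if t i = 0 then 1 else - ab m q z (t i))) ∅ (by simp)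
    (by
      intro r hr i _
      rw [TU, Finset.mem_filter, Fintype.mem_piFinset] at hr
      have := hr.1 i
      rwa [Finset.mem_insert] at this)
    (fun r hr i hi => absurd hi (Finset.notMem_empty i))
    (by
      intro r hr
      rw [TU, Finset.mem_filter] at hr
      have h3 := card_TB hm hz2 hr.2.1
      have h4 := card_TB hm hz2 hr.2.2
      rw [nz_split P P' hd r]
      omega)
    (by
      intro r hr
      rw [TU, Finset.mem_filter] at hr
      have h3 := prod_TB hz2 hr.2.1
      have h4 := prod_TB hz2 hr.2.2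
      rw [prod_split P P' hd (fun _ k => max 1 k) r, two_mul, pow_add]
      exact Nat.mul_le_mul h3 h4)
    (by
      intro r _
      rw [Finset.abs_prod]
      refine Finset.prod_le_prod (fun i _ => abs_nonneg _) fun i _ => ?_
      rw [if_neg (Finset.notMem_empty i)]
      split_ifs
      · rw [abs_one]
      · rw [abs_neg, abs_of_nonneg (ab_nonneg _ _ _ _)])
  have hsum : ∀ n, (∑ r ∈ TU m q (E / 16) z P P',
      (∏ i, (if r i = 0 then 1 else - ab m q z (r i))) * ∏ i, vv y z (r i) (n + (i : ℕ)))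
      = WB m q (E / 16) z y P n * WB m q (E / 16) z y P' n := by
    intro n
    rw [WB, WB, ← sum_TU m q (E / 16) z P P' hd
      (fun r => ∏ i : P, ((if r i = 0 then 1 else - ab m q z (r i)) *
        vv y z (r i) (n + (i : ℕ))))
      (fun r => ∏ i : P', ((if r i = 0 then 1 else - ab m q z (r i)) *
        vv y z (r i) (n + (i : ℕ))))]
    refine Finset.sum_congr rfl fun r _ => ?_
    rw [← Finset.prod_mul_distrib]
    exact prod_split P P' hd
      (fun i k => (if k = 0 then 1 else - ab m q z k) * vv y z k (n + i)) r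
  have hXX : 0 ≤ XI u v Q := by unfold XI; positivity
  have hD1 : 1 ≤ DB m q (E / 16) z y P := one_le_DB m q (E / 16) z y hPy
  have hD2 : 1 ≤ DB m q (E / 16) z y P' := one_le_DB m q (E / 16) z y hPy'
  -- the main term
  have hmain : ∑ r ∈ TU m q (E / 16) z P P',
      (∏ i, (if r i = 0 then 1 else - ab m q z (r i))) ^ 2 *
        (gB y z (sp r) * ∏ i, (if r i = 0 then 1 else (Nat.totient (r i) : ℝ)))
      ≤ (1 + ε / 2) * (DB m q (E / 16) z y P * DB m q (E / 16) z y P') := by
    rw [DB, DB, ← sum_TU m q (E / 16) z P P' hd (fun r => wb m q y z r)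
      (fun r => wb m q y z r), Finset.mul_sum]
    refine Finset.sum_le_sum fun r hr => ?_
    rw [TU, Finset.mem_filter] at hr
    have hc1 := card_TB hm hz2 hr.2.1
    have hc2 := card_TB hm hz2 hr.2.2
    have hc1' : nz (resL P P' r) ≤ K0 := hc1.trans (Nat.le_succ _)
    have hc2' : nz (resR P P' r) ≤ K0 := hc2.trans (Nat.le_succ _)
    have hgl := h0 y z (sp (resL P P' r)) (sp (resR P P' r)) (by omega)
      ((sp_sub _).trans hPz) ((sp_sub _).trans hPz')
      (Finset.disjoint_of_subset_left (sp_sub _) (Finset.disjoint_of_subset_right (sp_sub _) hd))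
      (by rw [card_sp]; omega) (by rw [card_sp]; omega)
    rw [← sp_split, h2 y z t _ ((sp_sub _).trans hP), h2 y z t' _ ((sp_sub _).trans hP'),
      card_sp, card_sp] at hgl
    have hg1 : 0 ≤ gg y z (nz (resL P P' r)) := gg_nonneg (by omega)
    have hg2 : 0 ≤ gg y z (nz (resR P P' r)) := gg_nonneg (by omega)
    have hexp : Real.exp (4 * ((nz (resL P P' r) : ℝ) * (nz (resR P P' r) : ℝ)) * Real.log z / y)
        ≤ 1 + ε / 2 := by
      rw [← hexpδ]
      refine Real.exp_le_exp.2 (le_trans ?_ hkd)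
      rw [div_le_div_iff₀ hyr hE0r]
      have h5 : (nz (resL P P' r) : ℝ) * (nz (resR P P' r) : ℝ) ≤ (K0 : ℝ) * K0 :=
        mul_le_mul (by exact_mod_cast hc1') (by exact_mod_cast hc2') (by positivity)
          (by positivity)
      have h6 : 0 ≤ (K0 : ℝ) * K0 := by positivity
      have h7 : 0 ≤ Real.log z := by linarith
      calc 4 * ((nz (resL P P' r) : ℝ) * (nz (resR P P' r) : ℝ)) * Real.log z * E
          = 4 * ((nz (resL P P' r) : ℝ) * (nz (resR P P' r) : ℝ)) * (E * Real.log z) := by ring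
        _ ≤ 4 * ((K0 : ℝ) * K0) * (E * Real.log z) :=
            mul_le_mul_of_nonneg_right (by linarith) (by positivity)
        _ ≤ 4 * ((K0 : ℝ) * K0) * y := mul_le_mul_of_nonneg_left hylog (by positivity)
    have hgB : gB y z (sp r) ≤
        (1 + ε / 2) * (gg y z (nz (resL P P' r)) * gg y z (nz (resR P P' r))) := by
      refine hgl.trans ?_
      rw [mul_comm]
      exact mul_le_mul_of_nonneg_right hexp (mul_nonneg hg1 hg2)
    have hpr : (∏ i, (if r i = 0 then 1 else - ab m q z (r i))) ^ 2 *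
        ∏ i, (if r i = 0 then 1 else (Nat.totient (r i) : ℝ)) =
        (∏ i : P, (if resL P P' r i = 0 then 1 else
          ab m q z (resL P P' r i) ^ 2 * (Nat.totient (resL P P' r i) : ℝ))) *
        ∏ i : P', (if resR P P' r i = 0 then 1 else
          ab m q z (resR P P' r i) ^ 2 * (Nat.totient (resR P P' r i) : ℝ)) := by
      rw [← prod_split P P' hd
        (fun _ k => if k = 0 then 1 else ab m q z k ^ 2 * (Nat.totient k : ℝ)) r,
        ← Finset.prod_pow, ← Finset.prod_mul_distrib]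
      refine Finset.prod_congr rfl fun i _ => ?_
      split_ifs <;> ring
    have hpn : 0 ≤ (∏ i, (if r i = 0 then 1 else - ab m q z (r i))) ^ 2 *
        ∏ i, (if r i = 0 then 1 else (Nat.totient (r i) : ℝ)) := by
      refine mul_nonneg (sq_nonneg _) (Finset.prod_nonneg fun i _ => ?_)
      split_ifs
      · exact zero_le_one
      · positivity
    calc (∏ i, (if r i = 0 then 1 else - ab m q z (r i))) ^ 2 *
        (gB y z (sp r) * ∏ i, (if r i = 0 then 1 else (Nat.totient (r i) : ℝ)))
        = gB y z (sp r) * ((∏ i, (if r i = 0 then 1 else - ab m q z (r i))) ^ 2 *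
          ∏ i, (if r i = 0 then 1 else (Nat.totient (r i) : ℝ))) := by ring
      _ ≤ ((1 + ε / 2) * (gg y z (nz (resL P P' r)) * gg y z (nz (resR P P' r)))) *
          ((∏ i, (if r i = 0 then 1 else - ab m q z (r i))) ^ 2 *
          ∏ i, (if r i = 0 then 1 else (Nat.totient (r i) : ℝ))) :=
          mul_le_mul_of_nonneg_right hgB hpn
      _ = (1 + ε / 2) * (wb m q y z (resL P P' r) * wb m q y z (resR P P' r)) := by
          rw [hpr]
          unfold wb
          ring
  -- the error term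
  have herr : Real.exp (-(c * E)) ≤ ε / 2 := by
    have h3 : -(Real.log (ε / 2)) / c ≤ E := hE2.trans (by exact_mod_cast hEE2)
    rw [div_le_iff₀ hc] at h3
    rw [← Real.exp_log (show 0 < ε / 2 by linarith)]
    refine Real.exp_le_exp.2 ?_
    linarith
  simp only [hsum] at key
  rw [Finset.card_empty, pow_zero, mul_one] at key
  have hkey := (abs_le.1 key).2
  have hsq : ∑ n ∈ NI u v Q b, WB m q (E / 16) z y P n ^ 2 * WB m q (E / 16) z y P' n ^ 2 =
      ∑ n ∈ NI u v Q b, (WB m q (E / 16) z y P n * WB m q (E / 16) z y P' n) ^ 2 :=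
    Finset.sum_congr rfl fun n _ => (mul_pow _ _ _).symm
  rw [hsq]
  have hDD : 1 ≤ DB m q (E / 16) z y P * DB m q (E / 16) z y P' := one_le_mul_of_one_le_of_one_le hD1 hD2
  have h5 : Real.exp (-(c * E)) * XI u v Q ≤
      ε / 2 * (XI u v Q * (DB m q (E / 16) z y P * DB m q (E / 16) z y P')) := by
    calc Real.exp (-(c * E)) * XI u v Q ≤ ε / 2 * XI u v Q := mul_le_mul_of_nonneg_right herr hXX
      _ ≤ ε / 2 * (XI u v Q * (DB m q (E / 16) z y P * DB m q (E / 16) z y P')) := by
        refine mul_le_mul_of_nonneg_left ?_ (by linarith)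
        exact le_mul_of_one_le_right hXX hDD
  have h6 := mul_le_mul_of_nonneg_left hmain hXX
  calc ∑ n ∈ NI u v Q b, (WB m q (E / 16) z y P n * WB m q (E / 16) z y P' n) ^ 2
      ≤ XI u v Q * ∑ r ∈ TU m q (E / 16) z P P',
      (∏ i, (if r i = 0 then 1 else - ab m q z (r i))) ^ 2 *
        (gB y z (sp r) * ∏ i, (if r i = 0 then 1 else (Nat.totient (r i) : ℝ))) +
        Real.exp (-(c * E)) * XI u v Q := by linarith
    _ ≤ XI u v Q * ((1 + ε / 2) * (DB m q (E / 16) z y P * DB m q (E / 16) z y P')) +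
        ε / 2 * (XI u v Q * (DB m q (E / 16) z y P * DB m q (E / 16) z y P')) := by linarith
    _ = (1 + ε) * (XI u v Q * (DB m q (E / 16) z y P * DB m q (E / 16) z y P')) := by ring

end Pool.Agent.Helper13.GM

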